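import Pool.Agent.H892.VS.Main

/-!
# Components of border varieties of sums of powers at general points of secant varieties
(problem MP_02af42_ag, Q1)

The Cox ring `S` of the toric variety `X` is a polynomial ring graded by `ℤ^s` (`Cox`). A point of
the `r`-th secant variety is a linear functional `F` on the forms of degree `v` (`Cox.sig`: Zariski
closure of the sums of `r` multiples of evaluations at points). `Cox.hilb r` is the set of closed
points of the multigraded Hilbert scheme of the Hilbert function `h_{r,X}(u) = min (r, dim S_u)`,
`Cox.slip` its component of limits of ideals of `r` points, and `Cox.vsp` is the border variety of
sums of powers. The Zariski topology `Cox.zar D` is given by the affine charts of the Grassmannians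
of the forms of degree `u`, `u ∈ D`, with `D` finite; by Haiman and Sturmfels it is the Zariski
topology of the Hilbert scheme if `D` is large (the ideals are then determined by their parts of
degrees in `D`). The theorem holds for all finite `D ∋ v`.

We prove the negated form of Q1 and more: there is a dense open subset `P ≠ 0` of the (irreducible)
secant variety `σ_r(X)` such that for all `F` in it and every irreducible component `C` of
`VSP(F, border rank of F)` the saturated ideals are dense in `C`: no nonempty open subset of `C`
consists of nonsaturated ideals.

Proof. Let `r₀` be the border rank of the general point; `σ_r = σ_{r₀}`. The pairs `(J, F)` with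
`J ∈ Slip` and `F ∈ (J_v)^⊥` form a projective bundle over `Slip` (the cone over it is in an affine
chart a product with an affine space), so they are the closure of the image of the pairs
`(ideal of r₀ points, F in their span)`. By Chevalley's theorem the image contains an open dense
subset `b ≠ 0`. By generic freeness the multiplication by `b` is injective on the coordinate ring of
the fibre over the general `F`, so `b ≠ 0` is dense in the fibre. Hence for general `F` the ideals of
`r₀` points, which are saturated, are dense in `VSP(F, r₀)`. The topology is noetherian, so they are
dense in every component.
-/

set_option autoImplicit false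

open MvPolynomial

namespace Pool.Agent.Results.MP_02af42_ag.GeneralPointSaturated

open Pool.Agent.H892.VS

/-- **The border VSP of a general point of a secant variety of a toric variety has no component
with nonsaturated general point.** -/
theorem result (n s : ℕ) (T : Cox n s) (v : Fin s → ℤ) (r : ℕ) (D : Finset (Fin s → ℤ))
    (hv : v ∈ D) : ∃ P : MvPolynomial (Mon n) ℂ, (∃ F ∈ T.sig v r, eval F P ≠ 0) ∧
      ∀ F ∈ T.sig v r, eval F P ≠ 0 → ∀ C, IsComp (T.zar D) (T.vsp D (T.brk v F) F) C →
        ¬ GeneralPt (T.zar D) C (fun J => ¬ T.Sat J) :=
  vmain n s T v r D hv

end Pool.Agent.Results.MP_02af42_ag.GeneralPointSaturated
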